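import Pool.Agent.Lib.MP_acafa7_al.MS.Iface1

namespace MSG.H64.B

variable {V : Type} {G : SimpleGraph V} {S : Set V}

theorem ne_nil {x y : V} {l : List V} (h : IsW G x y l) : l ≠ [] := by
  rintro rfl
  have := h.first
  simp at this

theorem cat_assoc (l m n : List V) (hm : m ≠ []) : cat (cat l m) n = cat l (cat m n) := by
  unfold cat
  rw [List.tail_append_of_ne_nil hm, List.append_assoc]

theorem cat_split {x y z : V} {l m : List V} (hl : IsW G x y l) (hm : IsW G y z m) :
    ∃ l0 m0, l = l0 ++ [y] ∧ m = y :: m0 ∧ cat l m = l0 ++ y :: m0 := by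
  have h1 := hl.last
  have h2 := hm.first
  rw [List.getLast?_eq_some_iff] at h1
  rw [List.head?_eq_some_iff] at h2
  obtain ⟨l0, rfl⟩ := h1
  obtain ⟨m0, rfl⟩ := h2
  exact ⟨l0, m0, rfl, rfl, by simp [cat]⟩

theorem isW_cat {x y z : V} {l m : List V} (hl : IsW G x y l) (hm : IsW G y z m) :
    IsW G x z (cat l m) := by
  obtain ⟨l0, m0, rfl, rfl, h⟩ := cat_split hl hm
  refine ⟨?_, ?_, ?_⟩
  · have hc := hl.chain
    rw [h, List.isChain_append]
    rw [List.isChain_append] at hc
    refine ⟨hc.1, hm.chain, ?_⟩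
    intro p hp q hq
    exact hc.2.2 p hp q (by simpa using hq)
  · have := hl.first
    unfold cat
    rw [← this]
    cases l0 <;> simp
  · have := hm.last
    rw [h, List.getLast?_append, this]
    rfl

theorem isW_rev {x y : V} {l : List V} (hl : IsW G x y l) : IsW G y x l.reverse := by
  refine ⟨?_, ?_, ?_⟩
  · rw [List.isChain_reverse]
    exact hl.chain.imp (fun a b h => h.symm)
  · rw [List.head?_reverse]; exact hl.last
  · rw [List.getLast?_reverse]; exact hl.first

theorem isW_map (a : Equiv.Perm V) (ha : ∀ x y, G.Adj (a x) (a y) ↔ G.Adj x y) {x y : V}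
    {l : List V} (hl : IsW G x y l) : IsW G (a x) (a y) (l.map a) := by
  refine ⟨?_, ?_, ?_⟩
  · rw [List.isChain_map]
    exact hl.chain.imp (fun p q h => (ha p q).2 h)
  · rw [List.head?_map, hl.first]; rfl
  · rw [List.getLast?_map, hl.last]; rfl

theorem cat_rev {x y z : V} {l m : List V} (hl : IsW G x y l) (hm : IsW G y z m) :
    (cat l m).reverse = cat m.reverse l.reverse := by
  obtain ⟨l0, m0, rfl, rfl, h⟩ := cat_split hl hm
  rw [h]
  simp [cat]

theorem cat_map (a : V → V) (l m : List V) : (cat l m).map a = cat (l.map a) (m.map a) := by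
  simp [cat, List.map_tail]

theorem mem_cat {l m : List V} {v : V} (h : v ∈ cat l m) : v ∈ l ∨ v ∈ m := by
  unfold cat at h
  rw [List.mem_append] at h
  rcases h with h | h
  · exact Or.inl h
  · exact Or.inr (List.mem_of_mem_tail h)

theorem cat_mem_left {l m : List V} {v : V} (h : v ∈ l) : v ∈ cat l m := by
  unfold cat
  exact List.mem_append_left _ h

theorem cat_mem_right {x y z : V} {l m : List V} (hl : IsW G x y l) (hm : IsW G y z m) {v : V}
    (h : v ∈ m) : v ∈ cat l m := by
  obtain ⟨l0, m0, rfl, rfl, h'⟩ := cat_split hl hm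
  rw [h']
  exact List.mem_append_right _ h

/-- homotopy of weight zero -/
def HH (G : SimpleGraph V) (S : Set V) (l l' : List V) : Prop :=
  Hom G S (fun _ _ _ => 0) l l' 0

theorem HH.rfl' (l : List V) : HH G S l l := Hom.refl l

theorem HH.trans (h1 : HomAStatement) {l l' l'' : List V} (h : HH G S l l')
    (h' : HH G S l' l'') : HH G S l l'' := by
  have := (h1 V G S (fun _ _ _ => 0)).1 l l' l'' 0 0 h h'
  simpa [HH] using this

theorem HH.symm (h1 : HomAStatement) {l l' : List V} (hl : ∀ x ∈ l, x ∈ S) (h : HH G S l l') :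
    HH G S l' l := ((h1 V G S (fun _ _ _ => 0)).2.2.1 l l' 0 hl h).2

theorem HH.right (h1 : HomAStatement) {l l' : List V} (m : List V) (h : HH G S l l') :
    HH G S (cat l m) (cat l' m) := by
  have := (h1 V G S (fun _ _ _ => 0)).2.1 [] m.tail l l' 0 h
  simpa [HH, cat] using this

theorem HH.left (h1 : HomAStatement) {x y z : V} {l m m' : List V} (hl : IsW G x y l)
    (hm : IsW G y z m) (hm' : IsW G y z m') (h : HH G S m m') :
    HH G S (cat l m) (cat l m') := by
  obtain ⟨l0, m0, e1, e2, e3⟩ := cat_split hl hm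
  obtain ⟨l1, m1, f1, f2, f3⟩ := cat_split hl hm'
  have e : l0 = l1 := by
    have := e1.symm.trans f1
    simpa using this
  have := (h1 V G S (fun _ _ _ => 0)).2.1 l0 [] m m' 0 h
  rw [e3, f3, ← e2, ← f2, ← e]
  simpa [HH] using this

theorem cat_one_left {x y : V} {m : List V} (hm : IsW G x y m) : cat [x] m = m := by
  have h2 := hm.first
  rw [List.head?_eq_some_iff] at h2
  obtain ⟨m0, rfl⟩ := h2
  rfl

theorem isW_one (x : V) : IsW G x x [x] := ⟨by simp, rfl, rfl⟩

theorem HH.cancel (h1 : HomAStatement) {x y : V} {l : List V} (hl : IsW G x y l)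
    (hS : ∀ z ∈ l, z ∈ S) : HH G S (cat l l.reverse) [x] :=
  (h1 V G S (fun _ _ _ => 0)).2.2.2.2.2.2.2.2.1 l x y hl hS

theorem sq_eq (a : Equiv.Perm V) (ha : ∀ x y, G.Adj (a x) (a y) ↔ G.Adj x y) {x y : V}
    {π s s' : List V} (hπ : IsW G x y π) (_ : IsW G x (a x) s) (hs' : IsW G y (a y) s') :
    sq a π s s' = cat π (cat s' (cat (π.map a).reverse s.reverse)) := by
  have hA := isW_rev (isW_map a ha hπ)
  unfold sq
  rw [cat_assoc _ _ _ (ne_nil hs'), cat_assoc _ _ _ (ne_nil (isW_cat hs' hA)),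
    cat_assoc _ _ _ (ne_nil hA)]

theorem isW_sq (a : Equiv.Perm V) (ha : ∀ x y, G.Adj (a x) (a y) ↔ G.Adj x y) {x y : V}
    {π s s' : List V} (hπ : IsW G x y π) (hs : IsW G x (a x) s) (hs' : IsW G y (a y) s') :
    IsW G x x (sq a π s s') := by
  rw [sq_eq a ha hπ hs hs']
  exact isW_cat hπ (isW_cat hs' (isW_cat (isW_rev (isW_map a ha hπ)) (isW_rev hs)))

/-- the contents of `Nul` for a square -/
theorem nul_sq (a : Equiv.Perm V) (ha : ∀ x y, G.Adj (a x) (a y) ↔ G.Adj x y) {x y : V}
    {π s s' : List V} (hπ : IsW G x y π) (hs : IsW G x (a x) s) (hs' : IsW G y (a y) s')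
    (h : Nul G S (sq a π s s')) :
    (∀ v ∈ π, v ∈ S) ∧ (∀ v ∈ s', v ∈ S) ∧ (∀ v ∈ π.map a, v ∈ S) ∧ (∀ v ∈ s, v ∈ S) ∧
      HH G S (cat π (cat s' (cat (π.map a).reverse s.reverse))) [x] := by
  have hA := isW_rev (isW_map a ha hπ)
  have hr := isW_rev hs
  obtain ⟨hm, x', hw, hh⟩ := h
  have hx : x' = x := by
    have h1 := hw.first
    have h2 := (isW_sq a ha hπ hs hs').first
    rw [h1] at h2
    exact Option.some.inj h2
  subst hx
  rw [sq_eq a ha hπ hs hs'] at hm hh
  have hm2 : ∀ v ∈ cat s' (cat (π.map a).reverse s.reverse), v ∈ S := fun v hv =>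
    hm v (cat_mem_right hπ (isW_cat hs' (isW_cat hA hr)) hv)
  have hm3 : ∀ v ∈ cat (π.map a).reverse s.reverse, v ∈ S := fun v hv =>
    hm2 v (cat_mem_right hs' (isW_cat hA hr) hv)
  refine ⟨fun v hv => hm v (cat_mem_left hv), fun v hv => hm2 v (cat_mem_left hv), ?_, ?_, hh⟩
  · intro v hv
    exact hm3 v (cat_mem_left (List.mem_reverse.2 hv))
  · intro v hv
    exact hm3 v (cat_mem_right hA hr (List.mem_reverse.2 hv))

theorem nul_of (a : Equiv.Perm V) (ha : ∀ x y, G.Adj (a x) (a y) ↔ G.Adj x y) {x y : V}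
    {π s s' : List V} (hπ : IsW G x y π) (hs : IsW G x (a x) s) (hs' : IsW G y (a y) s')
    (h1 : ∀ v ∈ π, v ∈ S) (h2 : ∀ v ∈ s', v ∈ S) (h3 : ∀ v ∈ π.map a, v ∈ S)
    (h4 : ∀ v ∈ s, v ∈ S)
    (h5 : HH G S (cat π (cat s' (cat (π.map a).reverse s.reverse))) [x]) :
    Nul G S (sq a π s s') := by
  refine ⟨?_, x, isW_sq a ha hπ hs hs', ?_⟩
  · rw [sq_eq a ha hπ hs hs']
    intro v hv
    rcases mem_cat hv with hv | hv
    · exact h1 v hv
    rcases mem_cat hv with hv | hv
    · exact h2 v hv
    rcases mem_cat hv with hv | hv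
    · exact h3 v (List.mem_reverse.1 hv)
    · exact h4 v (List.mem_reverse.1 hv)
  · rw [sq_eq a ha hπ hs hs']
    exact h5

theorem comp (h1 : HomAStatement) (a : Equiv.Perm V)
    (ha : ∀ x y, G.Adj (a x) (a y) ↔ G.Adj x y) {x y z : V}
    {π π' s s' s'' : List V} (hπ : IsW G x y π) (hπ' : IsW G y z π') (hs : IsW G x (a x) s)
    (hs' : IsW G y (a y) s') (hs'' : IsW G z (a z) s'')
    (h : Nul G S (sq a π s s')) (h' : Nul G S (sq a π' s' s'')) :
    Nul G S (sq a (cat π π') s s'') := by
  obtain ⟨p1, p2, p3, p4, p5⟩ := nul_sq a ha hπ hs hs' h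
  obtain ⟨q1, q2, q3, q4, q5⟩ := nul_sq a ha hπ' hs' hs'' h'
  have hA := isW_rev (isW_map a ha hπ)
  have hB := isW_rev (isW_map a ha hπ')
  have hr := isW_rev hs
  have hr' := isW_rev hs'
  refine nul_of a ha (isW_cat hπ hπ') hs hs'' ?_ q2 ?_ p4 ?_
  · intro v hv
    rcases mem_cat hv with hv | hv
    · exact p1 v hv
    · exact q1 v hv
  · intro v hv
    rw [cat_map] at hv
    rcases mem_cat hv with hv | hv
    · exact p3 v hv
    · exact q3 v hv
  · rw [cat_map, cat_rev (isW_map a ha hπ) (isW_map a ha hπ')]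
    have hAr := isW_cat hA hr
    -- the tail
    have e1 : HH G S (cat (cat s'.reverse s') (cat (π.map a).reverse s.reverse))
        (cat (π.map a).reverse s.reverse) := by
      have c1 := HH.cancel (S := S) h1 hr' (fun v hv => p2 v (List.mem_reverse.1 hv))
      rw [List.reverse_reverse] at c1
      have c2 := HH.right h1 (cat (π.map a).reverse s.reverse) c1
      rwa [cat_one_left hAr] at c2
    have hT : IsW G (a y) x (cat (cat s'.reverse s') (cat (π.map a).reverse s.reverse)) :=
      isW_cat (isW_cat hr' hs') hAr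
    have hTS : ∀ v ∈ cat (cat s'.reverse s') (cat (π.map a).reverse s.reverse), v ∈ S := by
      intro v hv
      rcases mem_cat hv with hv | hv
      · rcases mem_cat hv with hv | hv
        · exact p2 v (List.mem_reverse.1 hv)
        · exact p2 v hv
      rcases mem_cat hv with hv | hv
      · exact p3 v (List.mem_reverse.1 hv)
      · exact p4 v (List.mem_reverse.1 hv)
    have e2 := HH.symm h1 hTS e1
    -- reassociation
    have e3 : cat (cat π π') (cat s'' (cat (cat (π'.map a).reverse (π.map a).reverse) s.reverse)) =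
        cat π (cat π' (cat s'' (cat (π'.map a).reverse (cat (π.map a).reverse s.reverse)))) := by
      rw [cat_assoc _ _ _ (ne_nil hπ'), cat_assoc _ _ _ (ne_nil hA)]
    have e4 : HH G S
        (cat π (cat π' (cat s'' (cat (π'.map a).reverse (cat (π.map a).reverse s.reverse)))))
        (cat π (cat π' (cat s'' (cat (π'.map a).reverse
          (cat (cat s'.reverse s') (cat (π.map a).reverse s.reverse)))))) := by
      refine HH.left h1 hπ (isW_cat hπ' (isW_cat hs'' (isW_cat hB hAr)))
        (isW_cat hπ' (isW_cat hs'' (isW_cat hB hT))) ?_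
      refine HH.left h1 hπ' (isW_cat hs'' (isW_cat hB hAr)) (isW_cat hs'' (isW_cat hB hT)) ?_
      refine HH.left h1 hs'' (isW_cat hB hAr) (isW_cat hB hT) ?_
      exact HH.left h1 hB hAr hT e2
    have e5 : cat π (cat π' (cat s'' (cat (π'.map a).reverse
          (cat (cat s'.reverse s') (cat (π.map a).reverse s.reverse))))) =
        cat π (cat (cat π' (cat s'' (cat (π'.map a).reverse s'.reverse)))
          (cat s' (cat (π.map a).reverse s.reverse))) := by
      rw [cat_assoc s'.reverse s' _ (ne_nil hs'),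
        cat_assoc π' _ _ (ne_nil (isW_cat hs'' (isW_cat hB hr'))),
        cat_assoc s'' _ _ (ne_nil (isW_cat hB hr')), cat_assoc _ _ _ (ne_nil hr')]
    have hU := isW_cat hs' hAr
    have e6 : HH G S (cat π (cat (cat π' (cat s'' (cat (π'.map a).reverse s'.reverse)))
          (cat s' (cat (π.map a).reverse s.reverse))))
        (cat π (cat s' (cat (π.map a).reverse s.reverse))) := by
      have c := HH.right h1 (cat s' (cat (π.map a).reverse s.reverse)) q5
      rw [cat_one_left hU] at c
      exact HH.left h1 hπ (isW_cat (isW_cat hπ' (isW_cat hs'' (isW_cat hB hr'))) hU) hU c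
    rw [e3]
    rw [e5] at e4
    exact (HH.trans h1 e4 (HH.trans h1 e6 p5))

theorem inv (h1 : HomAStatement) (a : Equiv.Perm V)
    (ha : ∀ x y, G.Adj (a x) (a y) ↔ G.Adj x y) {x y : V}
    {π s s' : List V} (hπ : IsW G x y π) (hs : IsW G x (a x) s)
    (hs' : IsW G y (a y) s') (h : Nul G S (sq a π s s')) :
    Nul G S (sq a π.reverse s' s) := by
  obtain ⟨p1, p2, p3, p4, p5⟩ := nul_sq a ha hπ hs hs' h
  have hA := isW_map a ha hπ
  have hA' := isW_rev hA
  have hr := isW_rev hs
  have hr' := isW_rev hs'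
  have hπr := isW_rev hπ
  have em : (π.reverse.map a).reverse = π.map a := by simp
  refine nul_of a ha hπr hs' hs ?_ p4 ?_ p2 ?_
  · exact fun v hv => p1 v (List.mem_reverse.1 hv)
  · intro v hv
    rw [List.map_reverse] at hv
    exact p3 v (List.mem_reverse.1 hv)
  · rw [em]
    -- W = π s' A⁻¹ s⁻¹, W⁻¹ = s A s'⁻¹ π⁻¹
    have hW := isW_cat hπ (isW_cat hs' (isW_cat hA' hr))
    have hWS : ∀ v ∈ cat π (cat s' (cat (π.map a).reverse s.reverse)), v ∈ S := by
      intro v hv
      rcases mem_cat hv with hv | hv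
      · exact p1 v hv
      rcases mem_cat hv with hv | hv
      · exact p2 v hv
      rcases mem_cat hv with hv | hv
      · exact p3 v (List.mem_reverse.1 hv)
      · exact p4 v (List.mem_reverse.1 hv)
    have e1 : (cat π (cat s' (cat (π.map a).reverse s.reverse))).reverse =
        cat s (cat (π.map a) (cat s'.reverse π.reverse)) := by
      rw [cat_rev hπ (isW_cat hs' (isW_cat hA' hr)), cat_rev hs' (isW_cat hA' hr),
        cat_rev hA' hr, List.reverse_reverse, List.reverse_reverse,
        cat_assoc _ _ _ (ne_nil hr'), cat_assoc _ _ _ (ne_nil hA)]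
    have e2 : HH G S (cat s (cat (π.map a) (cat s'.reverse π.reverse))) [x] := by
      have c := (h1 V G S (fun _ _ _ => 0)).2.2.2.2.2.2.1 _ _ 0 (fun _ _ _ => ⟨rfl, rfl⟩) p5
      rw [e1] at c
      simpa [HH] using c
    have hWr : IsW G x x (cat s (cat (π.map a) (cat s'.reverse π.reverse))) :=
      isW_cat hs (isW_cat hA (isW_cat hr' hπr))
    -- X = π⁻¹ s A s'⁻¹
    have hsr : IsW G x y (cat s (cat (π.map a) s'.reverse)) := isW_cat hs (isW_cat hA hr')
    have hX : IsW G y y (cat π.reverse (cat s (cat (π.map a) s'.reverse))) := isW_cat hπr hsr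
    have c1 := HH.cancel (S := S) h1 hπr (fun v hv => p1 v (List.mem_reverse.1 hv))
    rw [List.reverse_reverse] at c1
    have hcc : IsW G y y (cat π.reverse π) := isW_cat hπr hπ
    have e3 : HH G S (cat (cat π.reverse (cat s (cat (π.map a) s'.reverse))) (cat π.reverse π))
        (cat π.reverse (cat s (cat (π.map a) s'.reverse))) := by
      have c2 := HH.left h1 hX hcc (isW_one y) c1
      simpa [cat] using c2
    have hYS : ∀ v ∈ cat (cat π.reverse (cat s (cat (π.map a) s'.reverse))) (cat π.reverse π),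
        v ∈ S := by
      intro v hv
      rcases mem_cat hv with hv | hv
      · rcases mem_cat hv with hv | hv
        · exact p1 v (List.mem_reverse.1 hv)
        rcases mem_cat hv with hv | hv
        · exact p4 v hv
        rcases mem_cat hv with hv | hv
        · exact p3 v hv
        · exact p2 v (List.mem_reverse.1 hv)
      · rcases mem_cat hv with hv | hv
        · exact p1 v (List.mem_reverse.1 hv)
        · exact p1 v hv
    have e4 := HH.symm h1 hYS e3
    have e5 : cat (cat π.reverse (cat s (cat (π.map a) s'.reverse))) (cat π.reverse π) =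
        cat π.reverse (cat (cat s (cat (π.map a) (cat s'.reverse π.reverse))) π) := by
      rw [cat_assoc π.reverse _ _ (ne_nil hsr), cat_assoc s _ _ (ne_nil (isW_cat hA hr')),
        cat_assoc (π.map a) _ _ (ne_nil hr'),
        cat_assoc s _ _ (ne_nil (isW_cat hA (isW_cat hr' hπr))),
        cat_assoc (π.map a) _ _ (ne_nil (isW_cat hr' hπr)),
        cat_assoc s'.reverse π.reverse π (ne_nil hπr)]
    have e6 : HH G S (cat π.reverse (cat (cat s (cat (π.map a) (cat s'.reverse π.reverse))) π))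
        (cat π.reverse π) := by
      have c := HH.right h1 π e2
      rw [cat_one_left hπ] at c
      exact HH.left h1 hπr (isW_cat hWr hπ) hπ c
    rw [e5] at e4
    exact HH.trans h1 e4 (HH.trans h1 e6 c1)

theorem self (h1 : HomAStatement) (a : Equiv.Perm V)
    (ha : ∀ x y, G.Adj (a x) (a y) ↔ G.Adj x y) {x : V}
    {s : List V} (hs : IsW G x (a x) s) (hS : ∀ v ∈ s, v ∈ S ∧ a v ∈ S) :
    Nul G S (sq a s s (s.map a)) := by
  have hA := isW_map a ha hs
  have hA' := isW_rev hA
  have hr := isW_rev hs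
  have hmS : ∀ v ∈ s.map a, v ∈ S := by
    intro v hv
    rw [List.mem_map] at hv
    obtain ⟨w, hw, rfl⟩ := hv
    exact (hS w hw).2
  refine nul_of a ha hs hs hA (fun v hv => (hS v hv).1) hmS hmS (fun v hv => (hS v hv).1) ?_
  have c1 := HH.cancel (S := S) h1 hA hmS
  have c2 := HH.right h1 s.reverse c1
  rw [cat_one_left hr, cat_assoc _ _ _ (ne_nil hA')] at c2
  have c3 := HH.left h1 hs (isW_cat hA (isW_cat hA' hr)) hr c2
  exact HH.trans h1 c3 (HH.cancel h1 hs (fun v hv => (hS v hv).1))

/-- Algebra of null-homotopic squares. -/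
theorem homb (h1 : HomAStatement) : HomBStatement := by
  intro V G a ha S x y z π π' s s' s'' hπ hπ' hs hs' hs''
  exact ⟨fun h h' => comp h1 a ha hπ hπ' hs hs' hs'' h h', fun h => inv h1 a ha hπ hs hs' h,
    fun hS => self h1 a ha hs hS⟩

end MSG.H64.B
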