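import Pool.Agent.Lib.MP_acafa7_al.MS.Iface1
import Pool.Agent.Lib.MP_acafa7_al.MS.H64.HomB

/-! Walks as lists, distances, automorphisms. -/

namespace MSG.H64

variable {V : Type} {G : SimpleGraph V}

theorem isW_support {x y : V} (p : G.Walk x y) : IsW G x y p.support := by
  refine ⟨p.isChain_adj_support, ?_, ?_⟩
  · rw [List.head?_eq_some_head p.support_ne_nil, p.head_support]
  · rw [List.getLast?_eq_some_getLast p.support_ne_nil, p.getLast_support]

theorem isW_toWalk (l : List V) : ∀ x y, IsW G x y l → ∃ p : G.Walk x y, p.support = l := by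
  induction l with
  | nil => intro x y h; exact absurd rfl (B.ne_nil h)
  | cons a l ih =>
    intro x y h
    have hx : a = x := by simpa using h.first
    subst hx
    cases l with
    | nil =>
      have hy : a = y := by simpa using h.last
      subst hy
      exact ⟨SimpleGraph.Walk.nil, rfl⟩
    | cons b l =>
      have hc := h.chain
      rw [List.isChain_cons_cons] at hc
      have hw' : IsW G b y (b :: l) := by
        refine ⟨hc.2, rfl, ?_⟩
        have := h.last
        rwa [List.getLast?_cons_cons] at this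
      obtain ⟨p, hp⟩ := ih b y hw'
      exact ⟨SimpleGraph.Walk.cons hc.1 p, by rw [SimpleGraph.Walk.support_cons, hp]⟩

theorem dist_lt_length {x y : V} {l : List V} (h : IsW G x y l) : G.dist x y < l.length := by
  obtain ⟨p, rfl⟩ := isW_toWalk l x y h
  rw [p.length_support]
  exact Nat.lt_succ_of_le (SimpleGraph.dist_le p)

theorem dist_mem_lt {x y : V} {l : List V} (h : IsW G x y l) {z : V} (hz : z ∈ l) :
    G.dist x z < l.length := by
  classical
  obtain ⟨p, rfl⟩ := isW_toWalk l x y h
  rw [p.length_support]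
  have h1 := SimpleGraph.dist_le (p.takeUntil z hz)
  have h2 := p.length_takeUntil_le_length hz
  omega

theorem exists_geod (hG : G.Connected) (x y : V) :
    ∃ l, IsW G x y l ∧ l.length = G.dist x y + 1 := by
  obtain ⟨p, hp⟩ := hG.exists_walk_length_eq_dist x y
  exact ⟨p.support, isW_support p, by rw [p.length_support, hp]⟩

theorem dist_aut_le (hG : G.Connected) (e : Equiv.Perm V)
    (he : ∀ x y, G.Adj (e x) (e y) ↔ G.Adj x y) (x y : V) : G.dist (e x) (e y) ≤ G.dist x y := by
  obtain ⟨l, hl, hl'⟩ := exists_geod hG x y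
  have h := dist_lt_length (B.isW_map e he hl)
  rw [List.length_map, hl'] at h
  omega

theorem adj_symm_aut (e : Equiv.Perm V) (he : ∀ x y, G.Adj (e x) (e y) ↔ G.Adj x y) :
    ∀ x y, G.Adj (e⁻¹ x) (e⁻¹ y) ↔ G.Adj x y := by
  intro x y
  have := he (e⁻¹ x) (e⁻¹ y)
  rw [← this]
  simp

theorem dist_aut (hG : G.Connected) (e : Equiv.Perm V)
    (he : ∀ x y, G.Adj (e x) (e y) ↔ G.Adj x y) (x y : V) : G.dist (e x) (e y) = G.dist x y := by
  refine le_antisymm (dist_aut_le hG e he x y) ?_
  have := dist_aut_le hG e⁻¹ (adj_symm_aut e he) (e x) (e y)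
  simpa using this

theorem adj_npow (e : Equiv.Perm V) (he : ∀ x y, G.Adj (e x) (e y) ↔ G.Adj x y) (n : ℕ) :
    ∀ x y, G.Adj ((e ^ n) x) ((e ^ n) y) ↔ G.Adj x y := by
  induction n with
  | zero => intro x y; simp
  | succ n ih =>
    intro x y
    rw [pow_succ, Equiv.Perm.mul_apply, Equiv.Perm.mul_apply, ih, he]

theorem adj_zpow (e : Equiv.Perm V) (he : ∀ x y, G.Adj (e x) (e y) ↔ G.Adj x y) (n : ℤ) :
    ∀ x y, G.Adj ((e ^ n) x) ((e ^ n) y) ↔ G.Adj x y := by
  cases n with
  | ofNat n =>
    intro x y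
    simpa using adj_npow e he n x y
  | negSucc n =>
    have h := adj_symm_aut (e ^ (n + 1)) (adj_npow e he (n + 1))
    intro x y
    rw [zpow_negSucc]
    exact h x y

theorem dist_zpow (hG : G.Connected) (e : Equiv.Perm V)
    (he : ∀ x y, G.Adj (e x) (e y) ↔ G.Adj x y) (n : ℤ) (x y : V) :
    G.dist ((e ^ n) x) ((e ^ n) y) = G.dist x y :=
  dist_aut hG (e ^ n) (adj_zpow e he n) x y

theorem zpow_add_apply (e : Equiv.Perm V) (m n : ℤ) (x : V) :
    (e ^ (m + n)) x = (e ^ m) ((e ^ n) x) := by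
  rw [zpow_add, Equiv.Perm.mul_apply]

theorem free_inj {X : Cx V} {a : Equiv.Perm V} (h : FreeAut X a) {x : V} {m n : ℤ}
    (e : (a ^ m) x = (a ^ n) x) : m = n := by
  have h1 : (a ^ (m - n)) ((a ^ n) x) = (a ^ n) x := by
    rw [← zpow_add_apply, sub_add_cancel, e]
  have := h.free _ _ h1
  omega

end MSG.H64
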