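import Pool.Agent.Lib.MP_acafa7_al.MS.Iface3
import Pool.Agent.Lib.MP_acafa7_al.MS.H64.Wk

namespace MSG.H64

open B

variable {V : Type} {G : SimpleGraph V}

theorem Nul.mono (h1 : HomAStatement) {S S' : Set V} (hS : S ⊆ S') {l : List V}
    (h : Nul G S l) : Nul G S' l := by
  obtain ⟨hm, x, hw, hh⟩ := h
  exact ⟨fun v hv => hS (hm v hv), x, hw,
    (h1 V G S (fun _ _ _ => 0)).2.2.2.2.1 l [x] 0 S' hS hh⟩

theorem length_cat {x y z : V} {l m : List V} (hl : IsW G x y l) (hm : IsW G y z m) :
    (cat l m).length + 1 = l.length + m.length := by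
  obtain ⟨l0, m0, rfl, rfl, h⟩ := cat_split hl hm
  rw [h]
  simp
  omega

theorem length_sq (a : Equiv.Perm V) (ha : ∀ x y, G.Adj (a x) (a y) ↔ G.Adj x y) {x y : V}
    {π s s' : List V} (hπ : IsW G x y π) (hs : IsW G x (a x) s) (hs' : IsW G y (a y) s') :
    (sq a π s s').length + 3 = 2 * π.length + s.length + s'.length := by
  have hA := isW_rev (isW_map a ha hπ)
  have hr := isW_rev hs
  rw [sq_eq a ha hπ hs hs']
  have e1 := length_cat hπ (isW_cat hs' (isW_cat hA hr))
  have e2 := length_cat hs' (isW_cat hA hr)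
  have e3 := length_cat hA hr
  rw [List.length_reverse, List.length_map, List.length_reverse] at e3
  omega

/-- a trivial square -/
theorem nul_triv (h1 : HomAStatement) (a : Equiv.Perm V)
    (ha : ∀ x y, G.Adj (a x) (a y) ↔ G.Adj x y) {x : V} {s : List V} {S : Set V}
    (hs : IsW G x (a x) s) (hS : ∀ v ∈ s, v ∈ S) : Nul G S (sq a [x] s s) := by
  have hx : x ∈ S := hS x (List.mem_of_mem_head? (by rw [hs.first]; rfl))
  have hax : a x ∈ S := hS (a x) (List.mem_of_getLast? hs.last)
  have hr := isW_rev hs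
  refine nul_of a ha (isW_one x) hs hs (by simpa using hx) hS (by simpa using hax) hS ?_
  have e1 : cat ([x].map a).reverse s.reverse = s.reverse := by
    have : ([x].map a).reverse = [a x] := by simp
    rw [this, cat_one_left hr]
  rw [e1, cat_one_left (isW_cat hs hr)]
  exact HH.cancel h1 hs hS

theorem sweep1 (h1 : HomAStatement) (h2 : HomBStatement) {X : Cx V} {a : Equiv.Perm V}
    (ha : FreeAut X a) (K R : ℕ) (s : V → List V)
    (hs : ∀ x, IsW X.G x (a x) (s x)) (hR : 2 * K + 2 ≤ R)
    (hN : ∀ (x : V) (l : List V), IsW X.G x x l → l.length ≤ 2 * K + 3 →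
      Nul X.G {z | X.G.dist x z ≤ R} l) (l : List V) :
    ∀ (x y : V), IsW X.G x y l → (∀ z ∈ l, (s z).length ≤ K + 1) →
      ∀ S : Set V, (∀ z ∈ l, ∀ z', X.G.dist z z' ≤ R → z' ∈ S) →
      Nul X.G S (sq a l (s x) (s y)) := by
  induction l with
  | nil => intro x y h; exact absurd rfl (ne_nil h)
  | cons b l ih =>
    intro x y h hK S hS
    have hx : b = x := by simpa using h.first
    subst hx
    cases l with
    | nil =>
      have hy : b = y := by simpa using h.last
      subst hy
      refine nul_triv h1 a ha.adj (hs b) ?_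
      intro v hv
      refine hS b (by simp) v ?_
      have := dist_mem_lt (hs b) hv
      have := hK b (by simp)
      omega
    | cons c l =>
      have hc := h.chain
      rw [List.isChain_cons_cons] at hc
      have hw' : IsW X.G c y (c :: l) := by
        refine ⟨hc.2, rfl, ?_⟩
        have := h.last
        rwa [List.getLast?_cons_cons] at this
      have hw1 : IsW X.G b c [b, c] := by
        refine ⟨?_, rfl, rfl⟩
        rw [List.isChain_cons_cons]
        exact ⟨hc.1, by simp⟩
      have n1 : Nul X.G S (sq a [b, c] (s b) (s c)) := by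
        have hq := isW_sq a ha.adj hw1 (hs b) (hs c)
        have hl := length_sq a ha.adj hw1 (hs b) (hs c)
        have k1 := hK b (by simp)
        have k2 := hK c (by simp)
        simp only [List.length_cons, List.length_nil] at hl
        refine Nul.mono h1 ?_ (hN b _ hq (by omega))
        intro z hz
        exact hS b (by simp) z hz
      have n2 := ih c y hw' (fun z hz => hK z (List.mem_cons_of_mem _ hz)) S
        (fun z hz => hS z (List.mem_cons_of_mem _ hz))
      have n3 := (h2 V X.G a ha.adj S b c y [b, c] (c :: l) (s b) (s c) (s y) hw1 hw'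
        (hs b) (hs c) (hs y)).1 n1 n2
      exact n3

theorem zpow_comm1 (a : Equiv.Perm V) (n : ℤ) (x : V) : (a ^ (n + 1)) x = a ((a ^ n) x) := by
  rw [add_comm, zpow_add_apply, zpow_one]

theorem s_zpow (a : Equiv.Perm V) (s : V → List V) (h : ∀ x, s (a x) = (s x).map a) (x : V)
    (n : ℕ) : s ((a ^ (n : ℤ)) x) = (s x).map (a ^ (n : ℤ)) := by
  induction n with
  | zero => simp
  | succ n ih =>
    rw [Nat.cast_succ, zpow_comm1, h, ih, List.map_map]
    refine List.map_congr_left ?_
    intro y _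
    exact (zpow_comm1 a n y).symm

theorem s_len (a : Equiv.Perm V) (s : V → List V) (h : ∀ x, s (a x) = (s x).map a) (x : V)
    (n : ℤ) : (s ((a ^ n) x)).length = (s x).length := by
  obtain ⟨m, rfl | rfl⟩ := n.eq_nat_or_neg
  · rw [s_zpow a s h, List.length_map]
  · have := s_zpow a s h ((a ^ (-(m : ℤ))) x) m
    rw [← zpow_add_apply, add_neg_cancel, zpow_zero] at this
    have e : s x = (s ((a ^ (-(m : ℤ))) x)).map (a ^ (m : ℤ)) := this
    rw [e, List.length_map]

theorem sweepP (h1 : HomAStatement) (h2 : HomBStatement) {X : Cx V} {a : Equiv.Perm V}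
    (ha : FreeAut X a) (hG : X.G.Connected) (K R : ℕ) (s : V → List V)
    (hs : ∀ x, IsW X.G x (a x) (s x)) (hsa : ∀ x, s (a x) = (s x).map a)
    (hR : 2 * K + 2 ≤ R) (x : V) (hx : (s x).length ≤ K + 1) (n : ℕ) :
    ∃ l, IsW X.G x ((a ^ (n : ℤ)) x) l ∧ (∀ z ∈ l, ∃ i : ℤ, X.G.dist ((a ^ i) x) z ≤ K) ∧
      ∀ S : Set V, (∀ (i : ℤ) z, 0 ≤ i → i ≤ n → X.G.dist ((a ^ i) x) z ≤ R → z ∈ S) →
        Nul X.G S (sq a l (s x) (s ((a ^ (n : ℤ)) x))) := by
  have key : ∀ (m : ℤ) (v : V), v ∈ s ((a ^ m) x) → X.G.dist ((a ^ m) x) v ≤ K := by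
    intro m v hv
    have e1 := dist_mem_lt (hs ((a ^ m) x)) hv
    rw [s_len a s hsa] at e1
    omega
  induction n with
  | zero =>
    have e0 : (a ^ ((0 : ℕ) : ℤ)) x = x := by simp
    rw [e0]
    refine ⟨[x], isW_one x, ?_, ?_⟩
    · intro z hz
      rw [List.mem_singleton] at hz
      subst hz
      exact ⟨0, by simp⟩
    · intro S hS
      refine nul_triv h1 a ha.adj (hs x) ?_
      intro v hv
      refine hS 0 v le_rfl (by simp) ?_
      have e1 := dist_mem_lt (hs x) hv
      have e2 : (a ^ (0 : ℤ)) x = x := by simp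
      rw [e2]
      omega
  | succ n ih =>
    obtain ⟨l, k1, k2, k3⟩ := ih
    set y := (a ^ (n : ℤ)) x with hy
    have ey : (a ^ ((n + 1 : ℕ) : ℤ)) x = a y := by rw [Nat.cast_succ, zpow_comm1]
    rw [ey]
    refine ⟨cat l (s y), isW_cat k1 (hs y), ?_, ?_⟩
    · intro z hz
      rcases mem_cat hz with hz | hz
      · exact k2 z hz
      · exact ⟨n, key n z hz⟩
    · intro S hS
      have n1 := k3 S (fun i z hi hi' hd => hS i z hi (by push_cast; omega) hd)
      have n2 : Nul X.G S (sq a (s y) (s y) (s (a y))) := by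
        rw [hsa]
        have hay : IsW X.G (a y) (a (a y)) (s (a y)) := hs (a y)
        refine (h2 V X.G a ha.adj S y y (a y) [y] (s y) (s y) (s y) (s (a y)) (isW_one y)
          (hs y) (hs y) (hs y) (hs (a y))).2.2 ?_
        intro v hv
        have e1 := key n v hv
        constructor
        · exact hS n v (by positivity) (by push_cast; omega) (by omega)
        · refine hS (n + 1) (a v) (by positivity) (by push_cast; omega) ?_
          rw [zpow_comm1, dist_aut hG a ha.adj]
          omega
      exact (h2 V X.G a ha.adj S x y (a y) l (s y) (s x) (s y) (s (a y)) k1 (hs y)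
        (hs x) (hs y) (hs (a y))).1 n1 n2

/-- Sweeping a walk by squares. -/
theorem sweep (h1 : HomAStatement) (h2 : HomBStatement) : SweepStatement := by
  intro V X a ha hG K R s hs hsa hR hN
  refine ⟨fun x y l hl hK S hS => sweep1 h1 h2 ha K R s hs hR hN l x y hl hK S hS, ?_⟩
  intro x n hx
  obtain ⟨m, rfl | rfl⟩ := n.eq_nat_or_neg
  · obtain ⟨l, k1, k2, k3⟩ := sweepP h1 h2 ha hG K R s hs hsa hR x hx m
    refine ⟨l, k1, k2, fun S hS => k3 S ?_⟩
    intro i z hi hi' hd
    refine hS i z ?_ hd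
    rw [abs_of_nonneg hi, abs_of_nonneg (by positivity)]
    omega
  · set x' := (a ^ (-(m : ℤ))) x with hx'
    have hlen : (s x').length ≤ K + 1 := by rw [hx', s_len a s hsa]; exact hx
    obtain ⟨l, k1, k2, k3⟩ := sweepP h1 h2 ha hG K R s hs hsa hR x' hlen m
    have ex : (a ^ (m : ℤ)) x' = x := by
      rw [hx', ← zpow_add_apply, add_neg_cancel, zpow_zero]; rfl
    have ei : ∀ i : ℤ, (a ^ i) x' = (a ^ (i - m)) x := by
      intro i
      rw [hx', ← zpow_add_apply]; rfl
    rw [ex] at k1 k3
    refine ⟨l.reverse, isW_rev k1, ?_, ?_⟩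
    · intro z hz
      obtain ⟨i, hi⟩ := k2 z (List.mem_reverse.1 hz)
      exact ⟨i - m, by rw [← ei]; exact hi⟩
    · intro S hS
      have n1 := k3 S (by
        intro i z hi hi' hd
        rw [ei] at hd
        refine hS (i - m) z ?_ hd
        rw [abs_neg, abs_of_nonneg (by positivity : (0 : ℤ) ≤ (m : ℤ)), abs_le]
        constructor <;> omega)
      exact (h2 V X.G a ha.adj S x' x x l [x] (s x') (s x) (s x) k1 (isW_one x)
        (hs x') (hs x) (hs x)).2.1 n1

end MSG.H64
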