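import Pool.Agent.Lib.MP_acafa7_al.MS.Iface3
import Pool.Agent.Lib.MP_acafa7_al.MS.H64.Sweep

namespace MSG.H64

open B

variable {V : Type} {G : SimpleGraph V}

/-- a homotopy has weight zero if all triangles have weight zero -/
theorem hom_zero {Y : Set V} {l l' : List V} {e : ZMod 2}
    (h : Hom G Y (fun _ _ _ => 0) l l' e) : e = 0 := by
  induction h with
  | refl l => rfl
  | step s _ ih =>
    rw [ih]
    cases s <;> simp

/-- the edge walks of bounded length starting in a finite set -/
theorem finite_chains (hlf : ∀ x : V, {y | G.Adj x y}.Finite) (n : ℕ) :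
    ∀ F : Set V, F.Finite →
      {l : List V | (∀ x, l.head? = some x → x ∈ F) ∧ l.IsChain G.Adj ∧ l.length ≤ n}.Finite := by
  induction n with
  | zero =>
    intro F hF
    refine (Set.finite_singleton ([] : List V)).subset ?_
    rintro l ⟨_, _, h⟩
    simpa using h
  | succ n ih =>
    intro F hF
    have hN : (⋃ x ∈ F, {y | G.Adj x y}).Finite := hF.biUnion (fun x _ => hlf x)
    have h1 := ih _ hN
    have h2 := (hF.prod h1).image (fun p : V × List V => p.1 :: p.2)
    refine ((Set.finite_singleton ([] : List V)).union h2).subset ?_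
    rintro l ⟨ha, hb, hc⟩
    cases l with
    | nil => exact Or.inl rfl
    | cons x l =>
      refine Or.inr ⟨(x, l), ⟨ha x rfl, ?_, ?_, ?_⟩, rfl⟩
      · intro y hy
        cases l with
        | nil => simp at hy
        | cons z l =>
          have : z = y := by simpa using hy
          subst this
          rw [List.isChain_cons_cons] at hb
          rw [Set.mem_iUnion₂]
          exact ⟨x, ha x rfl, hb.1⟩
      · exact (List.isChain_cons.1 hb).2
      · simp only [List.length_cons] at hc
        show l.length ≤ n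
        omega

/-- Closed walks of bounded length are null-homotopic in balls of bounded radius. -/
theorem rad (hsc : ScStatement) (h1 : HomAStatement) : RadStatement := by
  classical
  intro V X Γ _ _ hX hΓ L
  obtain ⟨s, hs⟩ := hΓ.cocompact
  set A : Set (List V) := {l : List V | (∀ x, l.head? = some x → x ∈ (s : Set V)) ∧
    l.IsChain X.G.Adj ∧ l.length ≤ L + 1} with hA
  have hAf : A.Finite := finite_chains hΓ.locfin (L + 1) (s : Set V) s.finite_toSet
  -- each closed walk has a radius
  have key : ∀ (x : V) (l : List V), IsW X.G x x l → ∃ R : ℕ,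
      Hom X.G {z | X.G.dist x z ≤ R} (fun _ _ _ => 0) l [x] 0 := by
    intro x l hl
    obtain ⟨e, he⟩ := hsc V X.G hX.sc x l (fun _ _ _ => 0) hl
    have e0 := hom_zero he
    subst e0
    obtain ⟨N, _, _, hN⟩ := (h1 V X.G Set.univ (fun _ _ _ => 0)).2.2.2.2.2.2.2.1 l [x] 0 he
    refine ⟨N.sup (fun z => X.G.dist x z), ?_⟩
    refine (h1 V X.G (N : Set V) (fun _ _ _ => 0)).2.2.2.2.1 l [x] 0 _ ?_ hN
    intro z hz
    exact Finset.le_sup (f := fun z => X.G.dist x z) hz
  have key2 : ∀ l : List V, ∃ R : ℕ, ∀ x, IsW X.G x x l →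
      Hom X.G {z | X.G.dist x z ≤ R} (fun _ _ _ => 0) l [x] 0 := by
    intro l
    by_cases h : ∃ x, IsW X.G x x l
    · obtain ⟨x, hx⟩ := h
      obtain ⟨R, hR⟩ := key x l hx
      refine ⟨R, fun y hy => ?_⟩
      have : x = y := by
        have e1 := hx.first
        rw [hy.first] at e1
        exact (Option.some.inj e1).symm
      subst this
      exact hR
    · exact ⟨0, fun x hx => absurd ⟨x, hx⟩ h⟩
  choose ρ hρ using key2
  set R := max L (hAf.toFinset.sup ρ) with hRdef
  refine ⟨R, le_max_left _ _, ?_⟩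
  intro x l hl hlen
  refine ⟨?_, x, hl, ?_⟩
  · intro z hz
    have h2 := dist_mem_lt hl hz
    have h3 : L ≤ R := le_max_left _ _
    show X.G.dist x z ≤ R
    omega
  · obtain ⟨g, y, hy, hgy⟩ := hs x
    -- the automorphism
    set b : Equiv.Perm V := MulAction.toPerm g with hb
    have hbadj : ∀ u v, X.G.Adj (b u) (b v) ↔ X.G.Adj u v := fun u v => hΓ.adj g u v
    have hbi : ∀ u v, X.G.Adj (b⁻¹ u) (b⁻¹ v) ↔ X.G.Adj u v := adj_symm_aut b hbadj
    have hby : b y = x := hgy
    have hbx : b⁻¹ x = y := by rw [← hby]; simp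
    have hl' : IsW X.G y y (l.map (b⁻¹ : Equiv.Perm V)) := by
      have := isW_map b⁻¹ hbi hl
      rwa [hbx] at this
    have hmem : l.map (b⁻¹ : Equiv.Perm V) ∈ A := by
      refine ⟨?_, hl'.chain, ?_⟩
      · intro u hu
        rw [hl'.first] at hu
        rw [← Option.some.inj hu]
        exact hy
      · rw [List.length_map]; exact hlen
    have hR : ρ (l.map (b⁻¹ : Equiv.Perm V)) ≤ R :=
      le_trans (Finset.le_sup (f := ρ) (hAf.mem_toFinset.2 hmem)) (le_max_right _ _)
    have h2 := hρ _ y hl'
    have h3 := (h1 V X.G {z | X.G.dist y z ≤ ρ (l.map (b⁻¹ : Equiv.Perm V))}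
      (fun _ _ _ => 0)).2.2.2.2.2.2.2.2.2 b hbadj _ _ 0 h2
    have e1 : (l.map (b⁻¹ : Equiv.Perm V)).map b = l := by
      rw [List.map_map]
      have : (b : V → V) ∘ (b⁻¹ : Equiv.Perm V) = id := by
        funext u
        simp
      rw [this, List.map_id]
    have e2 : [y].map b = [x] := by simp [hby]
    rw [e1, e2] at h3
    refine (h1 V X.G _ (fun _ _ _ => 0)).2.2.2.2.1 l [x] 0 _ ?_ h3
    rintro z ⟨w, hw, rfl⟩
    show X.G.dist x (b w) ≤ R
    rw [← hby, dist_aut hX.conn b hbadj]
    exact le_trans hw hR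

end MSG.H64
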