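import Pool.Agent.Lib.MP_acafa7_al.MS.Iface3
import Pool.Agent.Lib.MP_acafa7_al.MS.H64.Wk

namespace MSG.H64

/-- the orbits of the powers of `a` -/
def orbS {V : Type} (a : Equiv.Perm V) : Setoid V where
  r x y := ∃ n : ℤ, (a ^ n) x = y
  iseqv := by
    refine ⟨fun x => ⟨0, by simp⟩, ?_, ?_⟩
    · rintro x y ⟨n, rfl⟩
      exact ⟨-n, by rw [← zpow_add_apply]; simp⟩
    · rintro x y z ⟨n, rfl⟩ ⟨m, rfl⟩
      exact ⟨m + n, by rw [zpow_add_apply]⟩

theorem exists_rep {V : Type} {X : Cx V} {a : Equiv.Perm V} (h : FreeAut X a) :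
    ∃ (r : V → V) (k : V → ℤ), (∀ x, (a ^ (k x)) (r x) = x) ∧ (∀ x, r (a x) = r x) ∧
      (∀ x, k (a x) = k x + 1) := by
  have hr : ∀ x : V, ∃ n : ℤ, (a ^ n) (Quotient.out (Quotient.mk (orbS a) x)) = x := fun x =>
    Quotient.exact (Quotient.out_eq (Quotient.mk (orbS a) x))
  choose k hk using hr
  have hr2 : ∀ x, Quotient.out (Quotient.mk (orbS a) (a x)) =
      Quotient.out (Quotient.mk (orbS a) x) := by
    intro x
    have : Quotient.mk (orbS a) (a x) = Quotient.mk (orbS a) x :=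
      Quotient.sound (⟨-1, by simp⟩ : ∃ n : ℤ, (a ^ n) (a x) = x)
    rw [this]
  refine ⟨fun x => Quotient.out (Quotient.mk (orbS a) x), k, hk, hr2, ?_⟩
  intro x
  have h1 := hk (a x)
  rw [hr2] at h1
  have h2 : (a ^ (k x + 1)) (Quotient.out (Quotient.mk (orbS a) x)) = a x := by
    rw [add_comm, zpow_add_apply, hk x, zpow_one]
  exact free_inj h (h1.trans h2.symm)

/-- Equivariant side walks. -/
theorem side : SideStatement := by
  intro V X a ha hG
  obtain ⟨r, k, h1, h2, h3⟩ := exists_rep ha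
  choose g hg using fun x => exists_geod hG x (a x)
  have ew : ∀ (n : ℤ) (x : V), (a ^ n) (a x) = a ((a ^ n) x) := by
    intro n x
    have e1 := zpow_add_apply a n 1 x
    have e2 := zpow_add_apply a 1 n x
    rw [zpow_one] at e1 e2
    rw [← e1, ← e2, add_comm]
  refine ⟨fun x => (g (r x)).map (a ^ (k x)), ?_, ?_, ?_⟩
  · intro x
    have h := B.isW_map (a ^ (k x)) (adj_zpow a ha.adj (k x)) (hg (r x)).1
    rwa [ew, h1] at h
  · intro x
    show (g (r (a x))).map (a ^ (k (a x))) = ((g (r x)).map (a ^ (k x))).map a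
    rw [h2, h3, List.map_map]
    refine List.map_congr_left ?_
    intro y _
    rw [add_comm, zpow_add_apply, zpow_one]
    rfl
  · intro x
    show ((g (r x)).map (a ^ (k x))).length = _
    rw [List.length_map, (hg (r x)).2, ← dist_zpow hG a ha.adj (k x) (r x) (a (r x)), ew, h1]

end MSG.H64
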