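import Pool.Agent.Lib.MP_acafa7_al.MS.Iface1

namespace MSG.H64

variable {V : Type} {G : SimpleGraph V} {Y : Set V} {ω : V → V → V → ZMod 2}

theorem Hom.single {l l' : List V} {e : ZMod 2} (h : Stp G Y ω l l' e) : Hom G Y ω l l' e := by
  have := Hom.step h (Hom.refl l')
  simpa using this

theorem Hom.trans' {l l' l'' : List V} {e e' : ZMod 2} (h : Hom G Y ω l l' e)
    (h' : Hom G Y ω l' l'' e') : Hom G Y ω l l'' (e + e') := by
  induction h with
  | refl l => simpa using h'
  | step s _ ih =>
    have := Hom.step s (ih h')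
    rwa [← add_assoc] at this

theorem Stp.ctx (u v : List V) {l l' : List V} {e : ZMod 2} (h : Stp G Y ω l l' e) :
    Stp G Y ω (u ++ l ++ v) (u ++ l' ++ v) e := by
  cases h with
  | ins u0 v0 x y hxy hy =>
    have := Stp.ins (G := G) (Y := Y) (ω := ω) (u ++ u0) (v0 ++ v) x y hxy hy
    simpa [List.append_assoc] using this
  | del u0 v0 x y hxy =>
    have := Stp.del (G := G) (Y := Y) (ω := ω) (u ++ u0) (v0 ++ v) x y hxy
    simpa [List.append_assoc] using this
  | exp u0 v0 x y z hxy hyz hxz hy =>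
    have := Stp.exp (G := G) (Y := Y) (ω := ω) (u ++ u0) (v0 ++ v) x y z hxy hyz hxz hy
    simpa [List.append_assoc] using this
  | con u0 v0 x y z hxy hyz hxz =>
    have := Stp.con (G := G) (Y := Y) (ω := ω) (u ++ u0) (v0 ++ v) x y z hxy hyz hxz
    simpa [List.append_assoc] using this

theorem Hom.ctx (u v : List V) {l l' : List V} {e : ZMod 2} (h : Hom G Y ω l l' e) :
    Hom G Y ω (u ++ l ++ v) (u ++ l' ++ v) e := by
  induction h with
  | refl l => exact Hom.refl _
  | step s _ ih => exact Hom.step (Stp.ctx u v s) ih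

theorem Stp.inv {l l' : List V} {e : ZMod 2} (hl : ∀ x ∈ l, x ∈ Y) (h : Stp G Y ω l l' e) :
    (∀ x ∈ l', x ∈ Y) ∧ Stp G Y ω l' l e := by
  cases h with
  | ins u0 v0 x y hxy hy =>
    refine ⟨?_, Stp.del _ _ _ _ hxy⟩
    intro w hw
    simp only [List.mem_append, List.mem_cons] at hw hl
    rcases hw with hw | hw | hw | hw | hw
    · exact hl w (Or.inl hw)
    · exact hl w (Or.inr (Or.inl hw))
    · rw [hw]; exact hy
    · exact hl w (Or.inr (Or.inl hw))
    · exact hl w (Or.inr (Or.inr hw))
  | del u0 v0 x y hxy =>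
    refine ⟨?_, Stp.ins _ _ _ _ hxy (hl y (by simp))⟩
    intro w hw
    simp only [List.mem_append, List.mem_cons] at hw hl
    rcases hw with hw | hw | hw
    · exact hl w (Or.inl hw)
    · exact hl w (Or.inr (Or.inl hw))
    · exact hl w (Or.inr (Or.inr (Or.inr (Or.inr hw))))
  | exp u0 v0 x y z hxy hyz hxz hy =>
    refine ⟨?_, Stp.con _ _ _ _ _ hxy hyz hxz⟩
    intro w hw
    simp only [List.mem_append, List.mem_cons] at hw hl
    rcases hw with hw | hw | hw | hw | hw
    · exact hl w (Or.inl hw)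
    · exact hl w (Or.inr (Or.inl hw))
    · rw [hw]; exact hy
    · exact hl w (Or.inr (Or.inr (Or.inl hw)))
    · exact hl w (Or.inr (Or.inr (Or.inr hw)))
  | con u0 v0 x y z hxy hyz hxz =>
    refine ⟨?_, Stp.exp _ _ _ _ _ hxy hyz hxz (hl y (by simp))⟩
    intro w hw
    simp only [List.mem_append, List.mem_cons] at hw hl
    rcases hw with hw | hw | hw | hw
    · exact hl w (Or.inl hw)
    · exact hl w (Or.inr (Or.inl hw))
    · exact hl w (Or.inr (Or.inr (Or.inr (Or.inl hw))))
    · exact hl w (Or.inr (Or.inr (Or.inr (Or.inr hw))))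

theorem Hom.inv {l l' : List V} {e : ZMod 2} (h : Hom G Y ω l l' e) (hl : ∀ x ∈ l, x ∈ Y) :
    (∀ x ∈ l', x ∈ Y) ∧ Hom G Y ω l' l e := by
  induction h with
  | refl l => exact ⟨hl, Hom.refl _⟩
  | step s _ ih =>
    obtain ⟨h1, h2⟩ := Stp.inv hl s
    obtain ⟨h3, h4⟩ := ih h1
    refine ⟨h3, ?_⟩
    rw [add_comm]
    exact Hom.trans' h4 (Hom.single h2)

theorem Hom.chg {l l' : List V} {e : ZMod 2} (ω' : V → V → V → ZMod 2) (h : Hom G Y ω l l' e) :
    ∃ e', Hom G Y ω' l l' e' := by
  induction h with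
  | refl l => exact ⟨0, Hom.refl _⟩
  | step s _ ih =>
    obtain ⟨e', he'⟩ := ih
    cases s with
    | ins u0 v0 x y hxy hy => exact ⟨_, Hom.step (Stp.ins _ _ _ _ hxy hy) he'⟩
    | del u0 v0 x y hxy => exact ⟨_, Hom.step (Stp.del _ _ _ _ hxy) he'⟩
    | exp u0 v0 x y z hxy hyz hxz hy => exact ⟨_, Hom.step (Stp.exp _ _ _ _ _ hxy hyz hxz hy) he'⟩
    | con u0 v0 x y z hxy hyz hxz => exact ⟨_, Hom.step (Stp.con _ _ _ _ _ hxy hyz hxz) he'⟩

theorem Stp.mono {l l' : List V} {e : ZMod 2} {Y' : Set V} (hY : ∀ x ∈ l', x ∈ Y → x ∈ Y')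
    (h : Stp G Y ω l l' e) : Stp G Y' ω l l' e := by
  cases h with
  | ins u0 v0 x y hxy hy => exact Stp.ins _ _ _ _ hxy (hY y (by simp) hy)
  | del u0 v0 x y hxy => exact Stp.del _ _ _ _ hxy
  | exp u0 v0 x y z hxy hyz hxz hy => exact Stp.exp _ _ _ _ _ hxy hyz hxz (hY y (by simp) hy)
  | con u0 v0 x y z hxy hyz hxz => exact Stp.con _ _ _ _ _ hxy hyz hxz

theorem Hom.mono {l l' : List V} {e : ZMod 2} {Y' : Set V} (hY : Y ⊆ Y')
    (h : Hom G Y ω l l' e) : Hom G Y' ω l l' e := by
  induction h with
  | refl l => exact Hom.refl _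
  | step s _ ih => exact Hom.step (Stp.mono (fun x _ hx => hY hx) s) ih

theorem head_app (u v w : List V) (x : V) (h : v.head? = some x) (h' : w.head? = some x) :
    (u ++ v).head? = (u ++ w).head? := by
  cases u with
  | nil => simp [h, h']
  | cons a u => simp

theorem Stp.isW {l l' : List V} {e : ZMod 2} (h : Stp G Y ω l l' e) (a b : V)
    (hw : IsW G a b l) : IsW G a b l' := by
  obtain ⟨hc, hf, hl⟩ := hw
  cases h with
  | ins u0 v0 x y hxy hy =>
    refine ⟨?_, ?_, ?_⟩
    · rw [List.isChain_append] at hc ⊢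
      refine ⟨hc.1, ?_, ?_⟩
      · rw [List.isChain_cons_cons, List.isChain_cons_cons]
        exact ⟨hxy, hxy.symm, hc.2.1⟩
      · intro p hp q hq
        exact hc.2.2 p hp q (by simpa using hq)
    · rw [← hf]; exact head_app _ _ _ x rfl rfl
    · rw [← hl]
      simp [List.getLast?_append, List.getLast?_cons_cons]
  | del u0 v0 x y hxy =>
    refine ⟨?_, ?_, ?_⟩
    · rw [List.isChain_append] at hc ⊢
      refine ⟨hc.1, ?_, ?_⟩
      · have h2 := hc.2.1
        rw [List.isChain_cons_cons, List.isChain_cons_cons] at h2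
        exact h2.2.2
      · intro p hp q hq
        exact hc.2.2 p hp q (by simpa using hq)
    · rw [← hf]; exact head_app _ _ _ x rfl rfl
    · rw [← hl]
      simp [List.getLast?_append, List.getLast?_cons_cons]
  | exp u0 v0 x y z hxy hyz hxz hy =>
    refine ⟨?_, ?_, ?_⟩
    · rw [List.isChain_append] at hc ⊢
      refine ⟨hc.1, ?_, ?_⟩
      · have h2 := hc.2.1
        rw [List.isChain_cons_cons] at h2
        rw [List.isChain_cons_cons, List.isChain_cons_cons]
        exact ⟨hxy, hyz, h2.2⟩
      · intro p hp q hq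
        exact hc.2.2 p hp q (by simpa using hq)
    · rw [← hf]; exact head_app _ _ _ x rfl rfl
    · rw [← hl]
      simp [List.getLast?_append, List.getLast?_cons_cons]
  | con u0 v0 x y z hxy hyz hxz =>
    refine ⟨?_, ?_, ?_⟩
    · rw [List.isChain_append] at hc ⊢
      refine ⟨hc.1, ?_, ?_⟩
      · have h2 := hc.2.1
        rw [List.isChain_cons_cons, List.isChain_cons_cons] at h2
        rw [List.isChain_cons_cons]
        exact ⟨hxz, h2.2.2⟩
      · intro p hp q hq
        exact hc.2.2 p hp q (by simpa using hq)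
    · rw [← hf]; exact head_app _ _ _ x rfl rfl
    · rw [← hl]
      simp [List.getLast?_append, List.getLast?_cons_cons]

theorem Hom.isW {l l' : List V} {e : ZMod 2} (h : Hom G Y ω l l' e) (a b : V)
    (hw : IsW G a b l) : IsW G a b l' := by
  induction h with
  | refl l => exact hw
  | step s _ ih => exact ih (Stp.isW s a b hw)

theorem Stp.rev {l l' : List V} {e : ZMod 2}
    (hω : ∀ x y z, ω y x z = ω x y z ∧ ω x z y = ω x y z) (h : Stp G Y ω l l' e) :
    Stp G Y ω l.reverse l'.reverse e := by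
  have key : ∀ x y z, ω z y x = ω x y z := by
    intro x y z
    rw [(hω y z x).1, (hω y x z).2, (hω x y z).1]
  cases h with
  | ins u0 v0 x y hxy hy =>
    have := Stp.ins (G := G) (Y := Y) (ω := ω) v0.reverse u0.reverse x y hxy hy
    simpa [List.append_assoc] using this
  | del u0 v0 x y hxy =>
    have := Stp.del (G := G) (Y := Y) (ω := ω) v0.reverse u0.reverse x y hxy
    simpa [List.append_assoc] using this
  | exp u0 v0 x y z hxy hyz hxz hy =>
    have := Stp.exp (G := G) (Y := Y) (ω := ω) v0.reverse u0.reverse z y x hyz.symm hxy.symm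
      hxz.symm hy
    rw [key] at this
    simpa [List.append_assoc] using this
  | con u0 v0 x y z hxy hyz hxz =>
    have := Stp.con (G := G) (Y := Y) (ω := ω) v0.reverse u0.reverse z y x hyz.symm hxy.symm
      hxz.symm
    rw [key] at this
    simpa [List.append_assoc] using this

theorem Hom.rev {l l' : List V} {e : ZMod 2}
    (hω : ∀ x y z, ω y x z = ω x y z ∧ ω x z y = ω x y z) (h : Hom G Y ω l l' e) :
    Hom G Y ω l.reverse l'.reverse e := by
  induction h with
  | refl l => exact Hom.refl _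
  | step s _ ih => exact Hom.step (Stp.rev hω s) ih

theorem Stp.mem {l l' : List V} {e : ZMod 2} (h : Stp G Y ω l l' e) :
    ∀ x ∈ l', x ∈ Y ∨ x ∈ l := by
  cases h with
  | ins u0 v0 x y hxy hy =>
    intro w hw
    simp only [List.mem_append, List.mem_cons] at hw ⊢
    rcases hw with hw | hw | hw | hw | hw
    · exact Or.inr (Or.inl hw)
    · exact Or.inr (Or.inr (Or.inl hw))
    · rw [hw]; exact Or.inl hy
    · exact Or.inr (Or.inr (Or.inl hw))
    · exact Or.inr (Or.inr (Or.inr hw))
  | del u0 v0 x y hxy =>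
    intro w hw
    simp only [List.mem_append, List.mem_cons] at hw ⊢
    tauto
  | exp u0 v0 x y z hxy hyz hxz hy =>
    intro w hw
    simp only [List.mem_append, List.mem_cons] at hw ⊢
    rcases hw with hw | hw | hw | hw | hw
    · exact Or.inr (Or.inl hw)
    · exact Or.inr (Or.inr (Or.inl hw))
    · rw [hw]; exact Or.inl hy
    · exact Or.inr (Or.inr (Or.inr (Or.inl hw)))
    · exact Or.inr (Or.inr (Or.inr (Or.inr hw)))
  | con u0 v0 x y z hxy hyz hxz =>
    intro w hw
    simp only [List.mem_append, List.mem_cons] at hw ⊢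
    tauto

theorem Hom.fin {l l' : List V} {e : ZMod 2} (h : Hom G Y ω l l' e) :
    ∃ N : Finset V, (∀ x ∈ N, x ∈ Y ∨ x ∈ l) ∧ (∀ x ∈ l, x ∈ N) ∧
      Hom G (N : Set V) ω l l' e := by
  classical
  induction h with
  | refl l =>
    exact ⟨l.toFinset, fun x hx => Or.inr (by simpa using hx), fun x hx => by simpa using hx,
      Hom.refl _⟩
  | @step l l' l'' e e' s _ ih =>
    obtain ⟨N, h1, h2, h3⟩ := ih
    refine ⟨l.toFinset ∪ N, ?_, ?_, ?_⟩
    · intro x hx
      rw [Finset.mem_union] at hx
      rcases hx with hx | hx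
      · exact Or.inr (by simpa using hx)
      · rcases h1 x hx with h | h
        · exact Or.inl h
        · exact Stp.mem s x h
    · intro x hx
      rw [Finset.mem_union]
      exact Or.inl (by simpa using hx)
    · refine Hom.step (Stp.mono ?_ s) (Hom.mono ?_ h3)
      · intro x hx _
        have := h2 x hx
        simp [this]
      · intro x hx
        have hx' : x ∈ N := hx
        simp [hx']

theorem catRev (l : List V) : ∀ x y, IsW G x y l → (∀ z ∈ l, z ∈ Y) →
    Hom G Y ω (cat l l.reverse) [x] 0 := by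
  induction l with
  | nil =>
    intro x y hw _
    have := hw.first
    simp at this
  | cons a l ih =>
    intro x y hw hY
    have hx : a = x := by
      have := hw.first
      simpa using this
    subst hx
    cases l with
    | nil => exact Hom.refl _
    | cons b l =>
      have hc := hw.chain
      rw [List.isChain_cons_cons] at hc
      have hw' : IsW G b y (b :: l) := by
        refine ⟨hc.2, rfl, ?_⟩
        have := hw.last
        rwa [List.getLast?_cons_cons] at this
      have h1 := ih b y hw' (fun z hz => hY z (List.mem_cons_of_mem _ hz))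
      have h2 := Hom.ctx [a] [a] h1
      have h3 : [a] ++ cat (b :: l) (b :: l).reverse ++ [a] = cat (a :: b :: l)
          (a :: b :: l).reverse := by
        have hne : (b :: l).reverse ≠ [] := by simp
        unfold cat
        rw [List.reverse_cons (a := a) (as := b :: l), List.tail_append_of_ne_nil hne]
        simp
      rw [h3] at h2
      have h4 : Stp G Y ω ([] ++ a :: b :: a :: []) ([] ++ a :: []) 0 := Stp.del [] [] a b hc.1
      have h5 := Hom.trans' h2 (Hom.single h4)
      simpa using h5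

theorem Stp.map (b : Equiv.Perm V) (hb : ∀ x y, G.Adj (b x) (b y) ↔ G.Adj x y)
    {l l' : List V} {e : ZMod 2} (h : Stp G Y ω l l' e) :
    Stp G (b '' Y) (fun x y z => ω (b.symm x) (b.symm y) (b.symm z)) (l.map b) (l'.map b) e := by
  cases h with
  | ins u0 v0 x y hxy hy =>
    have := Stp.ins (G := G) (Y := b '' Y)
      (ω := fun x y z => ω (b.symm x) (b.symm y) (b.symm z)) (u0.map b) (v0.map b) (b x) (b y)
      ((hb _ _).2 hxy) ⟨y, hy, rfl⟩
    simpa [List.append_assoc] using this
  | del u0 v0 x y hxy =>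
    have := Stp.del (G := G) (Y := b '' Y)
      (ω := fun x y z => ω (b.symm x) (b.symm y) (b.symm z)) (u0.map b) (v0.map b) (b x) (b y)
      ((hb _ _).2 hxy)
    simpa [List.append_assoc] using this
  | exp u0 v0 x y z hxy hyz hxz hy =>
    have := Stp.exp (G := G) (Y := b '' Y)
      (ω := fun x y z => ω (b.symm x) (b.symm y) (b.symm z)) (u0.map b) (v0.map b) (b x) (b y)
      (b z) ((hb _ _).2 hxy) ((hb _ _).2 hyz) ((hb _ _).2 hxz) ⟨y, hy, rfl⟩
    simpa [List.append_assoc] using this
  | con u0 v0 x y z hxy hyz hxz =>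
    have := Stp.con (G := G) (Y := b '' Y)
      (ω := fun x y z => ω (b.symm x) (b.symm y) (b.symm z)) (u0.map b) (v0.map b) (b x) (b y)
      (b z) ((hb _ _).2 hxy) ((hb _ _).2 hyz) ((hb _ _).2 hxz)
    simpa [List.append_assoc] using this

theorem Hom.map (b : Equiv.Perm V) (hb : ∀ x y, G.Adj (b x) (b y) ↔ G.Adj x y)
    {l l' : List V} {e : ZMod 2} (h : Hom G Y ω l l' e) :
    Hom G (b '' Y) (fun x y z => ω (b.symm x) (b.symm y) (b.symm z)) (l.map b) (l'.map b) e := by
  induction h with
  | refl l => exact Hom.refl _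
  | step s _ ih => exact Hom.step (Stp.map b hb s) ih

/-- The algebra of homotopies. -/
theorem homa : HomAStatement := by
  intro V G Y ω
  refine ⟨?_, ?_, ?_, ?_, ?_, ?_, ?_, ?_, ?_, ?_⟩
  · exact fun l l' l'' e e' h h' => Hom.trans' h h'
  · exact fun u v l l' e h => Hom.ctx u v h
  · exact fun l l' e hl h => Hom.inv h hl
  · exact fun l l' e ω' h => Hom.chg ω' h
  · exact fun l l' e Y' hY h => Hom.mono hY h
  · exact fun l l' e x y h hw => Hom.isW h x y hw
  · exact fun l l' e hω h => Hom.rev hω h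
  · exact fun l l' e h => Hom.fin h
  · exact fun l x y hw hY => catRev l x y hw hY
  · exact fun b hb l l' e h => Hom.map b hb h

end MSG.H64
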